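import Pool.Agent.K7.H54.DP.ScaleT
import Pool.Agent.K7.H54.DP.GSC
import Pool.Agent.K7.H54.DP.MULT
import Pool.Agent.K7.H54.DP.PIGC
import Pool.Agent.K7.H54.DP.MODK
import Pool.Agent.K7.H54.DP.COUNT
import Pool.Agent.K7.H54.DP.SEP
import Pool.Agent.K7.H54.DP.AET
import Pool.Agent.K7.H54.DP.FACT
import Pool.Agent.K7.H54.DP.ROUNDT
import Pool.Agent.K7.H54.DP.COVERT
import Pool.Agent.K7.H54.DP.FINALT
import Pool.Agent.K7.H54.DP.GCD
import Pool.Agent.K7.H54.DP.ROT
import Pool.Agent.K7.H54.DP.DPV
import Pool.Agent.K7.H54.DP.IRR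
import Pool.Agent.K7.H54.DP.ARC
import Pool.Agent.K7.H54.DP.VDM

/-!
# MP_4c4335_nt: dense values of integer polynomials at almost every point of the circle

Let `z = exp (i θ)`. The weight of the integer polynomial `c 0 + c 1 X + ... + c D X ^ D` is the sum of
`1 + |c j|`, `0 ≤ j ≤ D`, and `S n θ` is the set of the logarithms (with imaginary part in `[0, 2 π)`) of the
nonzero values at `z` of the polynomials of weight at most `n`. `θ` has the property `DPV n R` if every point
of the rectangle `[-log R, 0] × [0, 2 π]` has distance at most `1 / 10` from `S n θ`, and `RDPV n θ` is the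
supremum of the `R` with this property.

**Theorem.** For almost every `θ` in `[0, 2 π)` and every `δ > 0`, `RDPV n θ ≥ exp (n ^ (2 / 3 - δ))` for all
large `n`.

The conjectured bound is `exp (c n)`; the known bound for almost every `θ` is `exp (c (log n) ^ 2)`.

The proof. (1) By the pigeonhole principle the polynomials `P` of degree less than `M` and height at most
`H = M ^ (40 ε)` with `|P(z)| ≤ exp (-M)` are a proportion of at least about `exp (-2 M)` of all polynomials of
this degree and height. Let `G` be their greatest common divisor. (2) The Gram-Schmidt vectors of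
`G, X G, X ^ 2 G, ...` are at least as long as the Mahler measure of `G`. Hence a polynomial `G` of large
Mahler measure has few multiples of small height; so the Mahler measure of `G` is at most `150`, and its degree
is `O(M / log H)`. (3) The number of irreducible polynomials of degree `f` and Mahler measure at most `T` is at
most `(C f ^ η) ^ (f + 1)` (discriminants and resultants of many polynomials congruent modulo `q`), and if all
the roots of an irreducible polynomial are at a distance at least `ρ` from `z` then its value at `z` is not too small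
(discriminant; the `k` nearest roots are separated from the others). So for almost every `θ` all values of
polynomials of degree `d` and Mahler measure at most `150` are at least `(C d ^ ε) ^ (-d)` in absolute value.
(4) Some real multiple of `G` is a linear combination of products `X ^ i P`; rounding the
coefficients gives an integer polynomial with coefficients of size `M ^ (1 / 2 + 40 ε)` whose value is
very close to any prescribed number between `exp (-3 M / 4)` and `exp (-M / 4)` in absolute value.
-/

set_option autoImplicit false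

namespace Pool.Agent.Results.MP_4c4335_nt.ExponentTwoThirds

open MeasureTheory

/-- the point `exp (i θ)` of the unit circle -/
noncomputable def point (θ : ℝ) : ℂ := Complex.exp (θ * Complex.I)

/-- the weight of the coefficient vector `c 0, ..., c D`: the sum of `1 + |c j|` -/
def weight (D : ℕ) (c : ℕ → ℤ) : ℤ := ∑ j ∈ Finset.range (D + 1), (1 + |c j|)

/-- the value at `exp (i θ)` of the polynomial with the coefficients `c 0, ..., c D` -/
noncomputable def value (θ : ℝ) (D : ℕ) (c : ℕ → ℤ) : ℂ :=
  ∑ j ∈ Finset.range (D + 1), (c j : ℂ) * point θ ^ j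

/-- the logarithm with imaginary part in `[0, 2 π)`: `toIcoMod Real.two_pi_pos 0 x` is the number in
`[0, 2 π)` which is congruent to `x` modulo `2 π` -/
noncomputable def lg (w : ℂ) : ℂ := ⟨Real.log ‖w‖, toIcoMod Real.two_pi_pos 0 w.arg⟩

/-- the set `S_n(θ)` of the logarithms of the nonzero values of the polynomials of weight at most `n` -/
def S (n : ℕ) (θ : ℝ) : Set ℂ :=
  {s | ∃ (D : ℕ) (c : ℕ → ℤ), weight D c ≤ n ∧ value θ D c ≠ 0 ∧ s = lg (value θ D c)}

/-- the property `DPV(n, R)`: every point of the rectangle `[-log R, 0] × [0, 2 π]` lies within distance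
`1 / 10` of a point of `S_n(θ)` -/
def DPV (n : ℕ) (R : ℝ) (θ : ℝ) : Prop :=
  ∀ x : ℂ, -Real.log R ≤ x.re → x.re ≤ 0 → 0 ≤ x.im → x.im ≤ 2 * Real.pi →
    ∃ s ∈ S n θ, ‖x - s‖ ≤ 1 / 10

/-- `R_DPV(n, θ)`, the supremum (possibly infinite) of the positive numbers `R` with `DPV(n, R)` -/
noncomputable def RDPV (n : ℕ) (θ : ℝ) : EReal :=
  sSup {x : EReal | ∃ R : ℝ, 0 < R ∧ DPV n R θ ∧ x = (R : EReal)}

theorem result : ∀ᵐ θ ∂(volume.restrict (Set.Ico (0 : ℝ) (2 * Real.pi))), ∀ δ : ℝ, 0 < δ →
    ∃ n₀ : ℕ, ∀ n : ℕ, n₀ ≤ n →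
      DPV n (Real.exp ((n : ℝ) ^ (2 / 3 - δ))) θ ∧
        (Real.exp ((n : ℝ) ^ (2 / 3 - δ)) : EReal) ≤ RDPV n θ := by
  have hcount : Pool.Agent.K7.H54.DP.StCount :=
    Pool.Agent.K7.H54.DP.count (Pool.Agent.K7.H54.DP.modk Pool.Agent.K7.H54.DP.vdm)
  have haet : Pool.Agent.K7.H54.DP.StAET :=
    Pool.Agent.K7.H54.DP.aet hcount Pool.Agent.K7.H54.DP.sep Pool.Agent.K7.H54.DP.arc
  have hscale : Pool.Agent.K7.H54.DP.StScaleT :=
    Pool.Agent.K7.H54.DP.scalet Pool.Agent.K7.H54.DP.fact Pool.Agent.K7.H54.DP.pigc
      (Pool.Agent.K7.H54.DP.mult Pool.Agent.K7.H54.DP.gsc) Pool.Agent.K7.H54.DP.gcd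
      Pool.Agent.K7.H54.DP.roundt Pool.Agent.K7.H54.DP.rot
  exact Pool.Agent.K7.H54.DP.finalt haet (Pool.Agent.K7.H54.DP.covert hscale)
    Pool.Agent.K7.H54.DP.dpv Pool.Agent.K7.H54.DP.irr

end Pool.Agent.Results.MP_4c4335_nt.ExponentTwoThirds
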