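import Pool.Agent.K7.H54.DP.UB
import Pool.Agent.K7.H54.DP.AE
import Pool.Agent.K7.H54.DP.FAC
import Pool.Agent.K7.H54.DP.ROOT
import Pool.Agent.K7.H54.DP.MODQ
import Pool.Agent.K7.H54.DP.ARC

/-!
# MP_4c4335_nt: an upper bound for `R_DPV(n, θ)` for almost every `θ`

**Theorem.** For almost every `θ` in `[0, 2 π)`, `R_DPV(n, θ) ≤ exp (61 n log n)` for all large `n`.

So the bound `exp (c n)` asked for is best possible up to the factor `log n` in the exponent.

The proof: for almost every `θ` all nonzero values of polynomials of weight at most `n` at `exp (i θ)` are at least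
`n ^ (-60 n)` in absolute value for all large `n` (Borel-Cantelli for the irreducible factors; they are counted modulo an
integer with the resultants, and small values are near roots, by the discriminant).
-/

set_option autoImplicit false

namespace Pool.Agent.Results.MP_4c4335_nt.UpperBound

open MeasureTheory

/-- the point `exp (i θ)` of the unit circle -/
noncomputable def point (θ : ℝ) : ℂ := Complex.exp (θ * Complex.I)

/-- the weight of the coefficient vector `c 0, ..., c D`: the sum of `1 + |c j|` -/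
def weight (D : ℕ) (c : ℕ → ℤ) : ℤ := ∑ j ∈ Finset.range (D + 1), (1 + |c j|)

/-- the value at `exp (i θ)` of the polynomial with the coefficients `c 0, ..., c D` -/
noncomputable def value (θ : ℝ) (D : ℕ) (c : ℕ → ℤ) : ℂ :=
  ∑ j ∈ Finset.range (D + 1), (c j : ℂ) * point θ ^ j

/-- the logarithm with imaginary part in `[0, 2 π)`: `toIcoMod Real.two_pi_pos 0 x` is the number in
`[0, 2 π)` which is congruent to `x` modulo `2 π` -/
noncomputable def lg (w : ℂ) : ℂ := ⟨Real.log ‖w‖, toIcoMod Real.two_pi_pos 0 w.arg⟩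

/-- the set `S_n(θ)` of the logarithms of the nonzero values of the polynomials of weight at most `n` -/
def S (n : ℕ) (θ : ℝ) : Set ℂ :=
  {s | ∃ (D : ℕ) (c : ℕ → ℤ), weight D c ≤ n ∧ value θ D c ≠ 0 ∧ s = lg (value θ D c)}

/-- the property `DPV(n, R)`: every point of the rectangle `[-log R, 0] × [0, 2 π]` lies within distance
`1 / 10` of a point of `S_n(θ)` -/
def DPV (n : ℕ) (R : ℝ) (θ : ℝ) : Prop :=
  ∀ x : ℂ, -Real.log R ≤ x.re → x.re ≤ 0 → 0 ≤ x.im → x.im ≤ 2 * Real.pi →
    ∃ s ∈ S n θ, ‖x - s‖ ≤ 1 / 10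

/-- `R_DPV(n, θ)`, the supremum (possibly infinite) of the positive numbers `R` with `DPV(n, R)` -/
noncomputable def RDPV (n : ℕ) (θ : ℝ) : EReal :=
  sSup {x : EReal | ∃ R : ℝ, 0 < R ∧ DPV n R θ ∧ x = (R : EReal)}

theorem result : ∀ᵐ θ ∂(volume.restrict (Set.Ico (0 : ℝ) (2 * Real.pi))), ∃ n₀ : ℕ, ∀ n : ℕ, n₀ ≤ n →
    RDPV n θ ≤ (Real.exp (61 * n * Real.log n) : EReal) := by
  have h1 : Pool.Agent.K7.H54.DP.StAE :=
    Pool.Agent.K7.H54.DP.ae Pool.Agent.K7.H54.DP.root Pool.Agent.K7.H54.DP.modq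
      Pool.Agent.K7.H54.DP.arc
  have h2 : ∀ᵐ θ ∂(volume.restrict (Set.Ico (0 : ℝ) (2 * Real.pi))),
      ∃ N₀ : ℕ, ∀ N : ℕ, N₀ ≤ N → Pool.Agent.K7.H54.DP.Good (Pool.Agent.K7.H54.DP.zz θ) N :=
    ae_mono (Measure.restrict_mono Set.Ico_subset_Icc_self le_rfl) h1
  filter_upwards [h2] with θ h3
  obtain ⟨N₀, hN⟩ := h3
  exact ⟨max N₀ 2, fun n hn => Pool.Agent.K7.H54.DP.upper Pool.Agent.K7.H54.DP.fac θ n
    ((le_max_right _ _).trans hn) (hN n ((le_max_left _ _).trans hn))⟩

end Pool.Agent.Results.MP_4c4335_nt.UpperBound
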