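import Pool.Agent.K7.H54.DP.ZO3

/-!
# MP_4c4335_nt: a zero-one law for the growth of `R_DPV(n, θ)`

**Theorem.** Let `φ : ℕ → [0, ∞)` satisfy `φ(2 n), φ(2 n + 1) ≤ K φ(n)` for all large `n`. Then either for almost
every `θ` in `[0, 2 π)` there is `c > 0` with `R_DPV(n, θ) ≥ exp (c φ(n))` for all large `n`, or for almost no `θ`
there is such a `c`. The same holds with `for infinitely many n` instead of `for all large n`.

For `φ(n) = n` this is the bound of the question: it holds for almost every `θ` or for almost no `θ`. So the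
question is answered positively as soon as the bound is proved on a set of positive measure, and if the answer is
negative then the bound fails for almost every `θ`.

The proof: `P(X)` is replaced by `P(X ^ 2)`, so `R_DPV(2 n, θ) ≥ R_DPV(n, 2 θ)`; the map `θ ↦ 2 θ` is ergodic; the set
of the `θ` with `DPV(n, R)` is measurable.
-/

set_option autoImplicit false

namespace Pool.Agent.Results.MP_4c4335_nt.ZeroOneLaw

open MeasureTheory Filter

/-- the point `exp (i θ)` of the unit circle -/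
noncomputable def point (θ : ℝ) : ℂ := Complex.exp (θ * Complex.I)

/-- the weight of the coefficient vector `c 0, ..., c D`: the sum of `1 + |c j|` -/
def weight (D : ℕ) (c : ℕ → ℤ) : ℤ := ∑ j ∈ Finset.range (D + 1), (1 + |c j|)

/-- the value at `exp (i θ)` of the polynomial with the coefficients `c 0, ..., c D` -/
noncomputable def value (θ : ℝ) (D : ℕ) (c : ℕ → ℤ) : ℂ :=
  ∑ j ∈ Finset.range (D + 1), (c j : ℂ) * point θ ^ j

/-- the logarithm with imaginary part in `[0, 2 π)`: `toIcoMod Real.two_pi_pos 0 x` is the number in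
`[0, 2 π)` which is congruent to `x` modulo `2 π` -/
noncomputable def lg (w : ℂ) : ℂ := ⟨Real.log ‖w‖, toIcoMod Real.two_pi_pos 0 w.arg⟩

/-- the set `S_n(θ)` of the logarithms of the nonzero values of the polynomials of weight at most `n` -/
def S (n : ℕ) (θ : ℝ) : Set ℂ :=
  {s | ∃ (D : ℕ) (c : ℕ → ℤ), weight D c ≤ n ∧ value θ D c ≠ 0 ∧ s = lg (value θ D c)}

/-- the property `DPV(n, R)`: every point of the rectangle `[-log R, 0] × [0, 2 π]` lies within distance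
`1 / 10` of a point of `S_n(θ)` -/
def DPV (n : ℕ) (R : ℝ) (θ : ℝ) : Prop :=
  ∀ x : ℂ, -Real.log R ≤ x.re → x.re ≤ 0 → 0 ≤ x.im → x.im ≤ 2 * Real.pi →
    ∃ s ∈ S n θ, ‖x - s‖ ≤ 1 / 10

/-- `R_DPV(n, θ)`, the supremum (possibly infinite) of the positive numbers `R` with `DPV(n, R)` -/
noncomputable def RDPV (n : ℕ) (θ : ℝ) : EReal :=
  sSup {x : EReal | ∃ R : ℝ, 0 < R ∧ DPV n R θ ∧ x = (R : EReal)}

theorem result (φ : ℕ → ℝ) (K : ℝ) (hφ : ∀ n, 0 ≤ φ n) (hK : 0 < K)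
    (h2 : ∀ᶠ n in atTop, φ (2 * n) ≤ K * φ n ∧ φ (2 * n + 1) ≤ K * φ n) :
    ((∀ᵐ θ ∂(volume.restrict (Set.Ico (0 : ℝ) (2 * Real.pi))),
      ∃ c : ℝ, 0 < c ∧ ∀ᶠ n : ℕ in atTop, (Real.exp (c * φ n) : EReal) ≤ RDPV n θ) ∨
    (∀ᵐ θ ∂(volume.restrict (Set.Ico (0 : ℝ) (2 * Real.pi))),
      ¬ ∃ c : ℝ, 0 < c ∧ ∀ᶠ n : ℕ in atTop, (Real.exp (c * φ n) : EReal) ≤ RDPV n θ)) ∧
    ((∀ᵐ θ ∂(volume.restrict (Set.Ico (0 : ℝ) (2 * Real.pi))),
      ∃ c : ℝ, 0 < c ∧ ∃ᶠ n : ℕ in atTop, (Real.exp (c * φ n) : EReal) ≤ RDPV n θ) ∨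
    (∀ᵐ θ ∂(volume.restrict (Set.Ico (0 : ℝ) (2 * Real.pi))),
      ¬ ∃ c : ℝ, 0 < c ∧ ∃ᶠ n : ℕ in atTop, (Real.exp (c * φ n) : EReal) ≤ RDPV n θ)) :=
  ⟨Pool.Agent.K7.H54.DP.law_eventually φ K hφ hK h2,
    Pool.Agent.K7.H54.DP.law_frequently φ K hφ hK h2⟩

end Pool.Agent.Results.MP_4c4335_nt.ZeroOneLaw
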